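import Pool.Agent.H50En.Defs

namespace Pool.Agent.H2En

open Real Finset Pool.Agent.H50En InnerProductGeometry

variable {V : Type} [DecidableEq V]
variable {E : Type*} [NormedAddCommGroup E] [InnerProductSpace ℝ E]

/-- Old faces: the triangle `0, u, v`. -/
theorem angle_two (u : E) {v : E} (hv : v ≠ 0) :
    (π - angle u (v - u)) + (π - angle v (u - v)) = π - angle u v := by
  have h := angle_add_angle_sub_add_angle_sub_eq_pi u hv
  have h1 : angle u (u - v) = π - angle u (v - u) := by
    rw [← neg_sub v u, angle_neg_right]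
  have h2 : angle v (v - u) = π - angle v (u - v) := by
    rw [← neg_sub u v, angle_neg_right]
  linarith

/-- Old faces in the form of the pyramids: `g'_b = (n + 1) g_k`, `g'_l = g_l - g_k`. -/
theorem angle_two' (u : E) {v : E} (hv : v ≠ 0) {a : ℝ} (ha : 0 < a) :
    (π - angle (a • u) (v - u)) + (π - angle (a • v) (u - v)) = π - angle u v := by
  rw [angle_smul_left_of_pos _ _ ha, angle_smul_left_of_pos _ _ ha]
  exact angle_two u hv

/-- New faces: the triangle `u, v, w`. -/
theorem angle_three {u v w : E} (huv : u ≠ v) (huw : u ≠ w) :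
    (π - angle (v - u) (w - u)) + (π - angle (u - v) (w - v)) + (π - angle (u - w) (v - w))
      = 2 * π := by
  have h := EuclideanGeometry.angle_add_angle_add_angle_eq_pi (p₁ := u) (p₂ := v) w huv.symm
  simp only [EuclideanGeometry.angle, vsub_eq_sub] at h
  rw [angle_comm (v - w) (u - w), angle_comm (w - u) (v - u)] at h
  linarith

/-- The dihedral angle from the gradients. -/
theorem ang_eq {z : Sym2 V → ℝ} {s : Finset V} {k l : V} {u v : E}
    (hkk : Q z s k k = -(1 / 2) * inner ℝ u u) (hll : Q z s l l = -(1 / 2) * inner ℝ v v)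
    (hkl : Q z s k l = -(1 / 2) * inner ℝ u v) :
    ang z s k l = π - angle u v := by
  unfold ang
  rw [hkk, hll, hkl, real_inner_self_eq_norm_sq, real_inner_self_eq_norm_sq, angle,
    ← Real.arccos_neg]
  congr 1
  have h1 : -(1 / 2) * ‖u‖ ^ 2 * (-(1 / 2) * ‖v‖ ^ 2) = (1 / 2 * (‖u‖ * ‖v‖)) ^ 2 := by ring
  rw [h1, Real.sqrt_sq (by positivity)]
  by_cases h : ‖u‖ * ‖v‖ = 0
  · rw [h]; simp
  · field_simp

/-- Independence of two gradients of barycentric coordinates, if there is a third vertex. -/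
theorem inner_sq_lt {u v p q r : E} {c d : ℝ} (h1 : c + inner ℝ u p = 1) (h2 : c + inner ℝ u q = 0)
    (h3 : c + inner ℝ u r = 0) (h4 : d + inner ℝ v p = 0) (h5 : d + inner ℝ v q = 1)
    (h6 : d + inner ℝ v r = 0) :
    0 < inner ℝ u u ∧ 0 < inner ℝ v v ∧ (inner ℝ u v) ^ 2 < inner ℝ u u * inner ℝ v v := by
  have hu : u ≠ 0 := by
    rintro rfl
    simp only [inner_zero_left] at h1 h2
    linarith
  have hv : v ≠ 0 := by
    rintro rfl
    simp only [inner_zero_left] at h4 h5
    linarith
  have huu : 0 < inner ℝ u u := by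
    rw [real_inner_self_eq_norm_sq]; have := norm_pos_iff.2 hu; positivity
  have hvv : 0 < inner ℝ v v := by
    rw [real_inner_self_eq_norm_sq]; have := norm_pos_iff.2 hv; positivity
  refine ⟨huu, hvv, ?_⟩
  have hw : inner ℝ u u • v - inner ℝ u v • u ≠ 0 := by
    intro h0
    have e1 : ∀ x : E, inner ℝ u u * inner ℝ v x - inner ℝ u v * inner ℝ u x = 0 := by
      intro x
      have := congrArg (fun y => inner ℝ y x) h0
      simpa [inner_sub_left, inner_smul_left] using this
    have eq := e1 q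
    have er := e1 r
    have a1 : inner ℝ v q = 1 - d := by linarith
    have a2 : inner ℝ v r = -d := by linarith
    have a3 : inner ℝ u q = -c := by linarith
    have a4 : inner ℝ u r = -c := by linarith
    rw [a1, a3] at eq
    rw [a2, a4] at er
    nlinarith
  have hpos : 0 < inner ℝ (inner ℝ u u • v - inner ℝ u v • u) (inner ℝ u u • v - inner ℝ u v • u) := by
    rw [real_inner_self_eq_norm_sq]; have := norm_pos_iff.2 hw; positivity
  have hexp : inner ℝ (inner ℝ u u • v - inner ℝ u v • u) (inner ℝ u u • v - inner ℝ u v • u)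
      = inner ℝ u u * (inner ℝ u u * inner ℝ v v - (inner ℝ u v) ^ 2) := by
    simp only [inner_sub_left, inner_sub_right, inner_smul_left, inner_smul_right,
      RCLike.conj_to_real, real_inner_comm u v]
    ring
  rw [hexp] at hpos
  have := (mul_pos_iff_of_pos_left huu).1 hpos
  linarith

/-- The sign conditions on `Q` from the dual system. -/
theorem Q_signs {z : Sym2 V → ℝ} {s : Finset V} {p : V → E} {g : V → E} {c : V → ℝ}
    (hQ : ∀ k ∈ s, ∀ l ∈ s, Q z s k l = -(1 / 2) * inner ℝ (g k) (g l))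
    (hd : ∀ k ∈ s, ∀ i ∈ s, c k + inner ℝ (g k) (p i) = if i = k then 1 else 0) (hs : 3 ≤ #s) :
    (∀ k ∈ s, Q z s k k < 0) ∧
      ∀ k ∈ s, ∀ l ∈ s, k ≠ l → 0 < Q z s k k * Q z s l l - Q z s k l ^ 2 := by
  have key : ∀ k ∈ s, ∀ l ∈ s, k ≠ l → 0 < inner ℝ (g k) (g k) ∧ 0 < inner ℝ (g l) (g l) ∧
      (inner ℝ (g k) (g l)) ^ 2 < inner ℝ (g k) (g k) * inner ℝ (g l) (g l) := by
    intro k hk l hl hkl
    obtain ⟨m, hm⟩ : ((s.erase k).erase l).Nonempty := by
      rw [← Finset.card_pos, Finset.card_erase_of_mem (Finset.mem_erase.2 ⟨hkl.symm, hl⟩),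
        Finset.card_erase_of_mem hk]
      omega
    simp only [Finset.mem_erase] at hm
    obtain ⟨hml, hmk, hm⟩ := hm
    refine inner_sq_lt (p := p k) (q := p l) (r := p m) (c := c k) (d := c l) ?_ ?_ ?_ ?_ ?_ ?_
    · rw [hd k hk k hk, if_pos rfl]
    · rw [hd k hk l hl, if_neg hkl.symm]
    · rw [hd k hk m hm, if_neg hmk]
    · rw [hd l hl k hk, if_neg hkl]
    · rw [hd l hl l hl, if_pos rfl]
    · rw [hd l hl m hm, if_neg hml]
  constructor
  · intro k hk
    obtain ⟨l, hl⟩ : (s.erase k).Nonempty := by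
      rw [← Finset.card_pos, Finset.card_erase_of_mem hk]; omega
    simp only [Finset.mem_erase] at hl
    have := (key k hk l hl.2 hl.1.symm).1
    rw [hQ k hk k hk]; linarith
  · intro k hk l hl hkl
    have := (key k hk l hl hkl).2.2
    rw [hQ k hk k hk, hQ l hl l hl, hQ k hk l hl]
    nlinarith

/-- Nonvanishing and injectivity of the gradients, from the dual system. -/
theorem grad_ne {s : Finset V} {p : V → E} {g : V → E} {c : V → ℝ}
    (hd : ∀ k ∈ s, ∀ i ∈ s, c k + inner ℝ (g k) (p i) = if i = k then 1 else 0) (hs : 3 ≤ #s)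
    {k : V} (hk : k ∈ s) : g k ≠ 0 ∧ ∀ l ∈ s, l ≠ k → g k ≠ g l := by
  constructor
  · intro h0
    obtain ⟨l, hl⟩ : (s.erase k).Nonempty := by
      rw [← Finset.card_pos, Finset.card_erase_of_mem hk]; omega
    simp only [Finset.mem_erase] at hl
    have h1 := hd k hk k hk
    have h2 := hd k hk l hl.2
    rw [h0, inner_zero_left, if_pos rfl] at h1
    rw [h0, inner_zero_left, if_neg hl.1] at h2
    linarith
  · intro l hl hlk h0
    obtain ⟨m, hm⟩ : ((s.erase k).erase l).Nonempty := by
      rw [← Finset.card_pos, Finset.card_erase_of_mem (Finset.mem_erase.2 ⟨hlk, hl⟩),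
        Finset.card_erase_of_mem hk]
      omega
    simp only [Finset.mem_erase] at hm
    obtain ⟨hml, hmk, hm⟩ := hm
    have h1 := hd k hk k hk
    have h2 := hd k hk m hm
    have h3 := hd l hl k hk
    have h4 := hd l hl m hm
    rw [if_pos rfl] at h1
    rw [if_neg hmk] at h2
    rw [if_neg hlk.symm, ← h0] at h3
    rw [if_neg hml, ← h0] at h4
    linarith

end Pool.Agent.H2En
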