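import Mathlib

namespace Pool.Agent.H2En

open Real Finset

variable {V : Type} [DecidableEq V]

/-- G: realisation of the pyramid. -/
theorem realise {z : Sym2 V → ℝ} {s : Finset V} {a : V} (ha : a ∈ s) {n : ℕ} (hm : #s = n + 1)
    (hn : 1 ≤ n) {t : ℝ} (ht : 0 < 1 / 2 + n * (t - 1 / 2))
    (h1 : ∀ x ∈ s, ∀ y ∈ s, x ≠ a → y ≠ a → x ≠ y → z s(x, y) = 1)
    (h2 : ∀ x ∈ s, x ≠ a → z s(a, x) = t) :
    ∃ p : s → EuclideanSpace ℝ (Fin n), AffineIndependent ℝ p ∧
      ∀ a b : s, a ≠ b → Dist.dist (p a) (p b) ^ 2 = z s(a.1, b.1) := by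
  classical
  have hcard : Fintype.card {x : s // x ≠ ⟨a, ha⟩} = n := by
    rw [Fintype.card_subtype_compl]
    simp [hm]
  let e : {x : s // x ≠ ⟨a, ha⟩} ≃ Fin n := Fintype.equivFinOfCardEq hcard
  have hn0 : (0 : ℝ) < n := by exact_mod_cast hn
  obtain ⟨r, hr⟩ : ∃ r : ℝ, r * r = 1 / 2 := ⟨√(1 / 2), Real.mul_self_sqrt (by norm_num)⟩
  obtain ⟨q, hq0, hq⟩ : ∃ q : ℝ, 0 < q ∧ q * q = 1 / 2 + n * (t - 1 / 2) :=
    ⟨√(1 / 2 + n * (t - 1 / 2)), Real.sqrt_pos.2 ht, Real.mul_self_sqrt ht.le⟩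
  obtain ⟨c, hc⟩ : ∃ c : ℝ, n * c = r + q := ⟨(r + q) / n, by field_simp⟩
  have hcc : n * c ^ 2 - 2 * r * c + 1 / 2 = t := by
    have : n * (n * c ^ 2 - 2 * r * c + 1 / 2) = n * t := by
      have h3 : n * (n * c ^ 2 - 2 * r * c + 1 / 2) = (n * c) ^ 2 - 2 * r * (n * c) + n / 2 := by ring
      rw [h3, hc]; nlinarith
    exact mul_left_cancel₀ hn0.ne' this
  let p : s → EuclideanSpace ℝ (Fin n) := fun x =>
    if h : x = ⟨a, ha⟩ then WithLp.toLp 2 (fun _ => c) else EuclideanSpace.single (e ⟨x, h⟩) r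
  have hpa : p ⟨a, ha⟩ = WithLp.toLp 2 (fun _ => c) := by simp [p]
  have hpx : ∀ (x : s) (h : x ≠ ⟨a, ha⟩), p x = EuclideanSpace.single (e ⟨x, h⟩) r := by
    intro x h; simp [p, h]
  refine ⟨p, ?_, ?_⟩
  · rw [affineIndependent_iff_linearIndependent_vsub ℝ p ⟨a, ha⟩, Fintype.linearIndependent_iff]
    intro g hg
    have hj : ∀ j : {x : s // x ≠ ⟨a, ha⟩}, g j * r = (∑ i, g i) * c := by
      intro j
      have h3 := congrArg (fun v : EuclideanSpace ℝ (Fin n) => v (e j)) hg
      simp only [vsub_eq_sub, hpa] at h3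
      have h4 : ∀ i : {x : s // x ≠ ⟨a, ha⟩},
          (g i • (p i.1 - WithLp.toLp 2 (fun _ => c)) : EuclideanSpace ℝ (Fin n)) (e j)
            = (if i = j then g i * r else 0) - g i * c := by
        intro i
        rw [hpx i.1 i.2]
        simp only [PiLp.smul_apply, PiLp.sub_apply, EuclideanSpace.single_apply, smul_eq_mul,
          e.injective.eq_iff, Subtype.coe_eta, @eq_comm _ j i]
        split_ifs <;> ring
      have h5 : (∑ i : {x : s // x ≠ ⟨a, ha⟩},
          g i • (p i.1 - WithLp.toLp 2 (fun _ => c)) : EuclideanSpace ℝ (Fin n)) (e j)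
            = ∑ i, ((if i = j then g i * r else 0) - g i * c) := by
        rw [WithLp.ofLp_sum, Finset.sum_apply]
        exact Finset.sum_congr rfl fun i _ => h4 i
      have h6 : ∑ i : {x : s // x ≠ ⟨a, ha⟩}, ((if i = j then g i * r else 0) - g i * c) = 0 := by
        rw [← h5]; exact h3
      rw [Finset.sum_sub_distrib, Finset.sum_ite_eq' Finset.univ j, ← Finset.sum_mul] at h6
      simp at h6
      linarith
    have hW : (∑ i, g i) * r = (∑ i, g i) * (n * c) := by
      have h7 : ∑ j, g j * r = ∑ _j : {x : s // x ≠ ⟨a, ha⟩}, (∑ i, g i) * c :=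
        Finset.sum_congr rfl fun j _ => hj j
      rw [← Finset.sum_mul, Finset.sum_const, Finset.card_univ, hcard, nsmul_eq_mul] at h7
      linarith
    have hW0 : (∑ i, g i) = 0 := by
      rw [hc] at hW
      have : (∑ i, g i) * q = 0 := by linarith
      rcases mul_eq_zero.1 this with h | h
      · exact h
      · exact absurd h hq0.ne'
    intro j
    have h8 := hj j
    rw [hW0, zero_mul] at h8
    rcases mul_eq_zero.1 h8 with h | h
    · exact h
    · rw [h] at hr; norm_num at hr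
  · have hsing : ∀ i j : Fin n, i ≠ j →
        Dist.dist (EuclideanSpace.single i r : EuclideanSpace ℝ (Fin n)) (EuclideanSpace.single j r) ^ 2 = 1 := by
      intro i j hij
      rw [dist_eq_norm, @norm_sub_sq_real]
      simp [EuclideanSpace.norm_single, hij, EuclideanSpace.inner_single_left, Ne.symm hij]
      nlinarith
    have hap : ∀ i : Fin n,
        Dist.dist (WithLp.toLp 2 (fun _ => c) : EuclideanSpace ℝ (Fin n)) (EuclideanSpace.single i r) ^ 2 = t := by
      intro i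
      rw [dist_eq_norm, @norm_sub_sq_real]
      simp [EuclideanSpace.norm_single, EuclideanSpace.inner_single_right, EuclideanSpace.norm_sq_eq]
      nlinarith
    intro x y hxy
    by_cases hx : x = ⟨a, ha⟩
    · have hy : y ≠ ⟨a, ha⟩ := fun h => hxy (hx.trans h.symm)
      rw [hx, hpa, hpx y hy, hap, h2 y.1 y.2 (fun h => hy (Subtype.ext h))]
    · by_cases hy : y = ⟨a, ha⟩
      · rw [hy, hpa, hpx x hx, dist_comm, hap, Sym2.eq_swap, h2 x.1 x.2 (fun h => hx (Subtype.ext h))]
      · rw [hpx x hx, hpx y hy, hsing, h1 x.1 x.2 y.1 y.2 (fun h => hx (Subtype.ext h))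
          (fun h => hy (Subtype.ext h)) (fun h => hxy (Subtype.ext h))]
        intro h
        apply hxy
        have := e.injective h
        exact congrArg Subtype.val this

end Pool.Agent.H2En
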